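import Pool.Agent.Helper6.HD.Defs

/-!
# The Casimir element of a space of matrices on which the trace form is non-degenerate
-/

set_option autoImplicit false

open MT

namespace HD

namespace CAS

section

variable {R : Type} [CommRing R] {n d : ℕ}

/-- the tensor `∑ k, A k ⊗ B k` -/
def cas (A B : Fin d → Matrix (Fin n) (Fin n) R) : Tensor n 2 2 R :=
  fun i j => ∑ k, A k (i 0) (j 0) * B k (i 1) (j 1)

theorem sum_two {ι : Type} [Fintype ι] {S : Type} [AddCommMonoid S] (f : (Fin 2 → ι) → S) :
    ∑ i : Fin 2 → ι, f i = ∑ a : ι, ∑ b : ι, f ![a, b] := by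
  rw [← Fintype.sum_prod_type' (fun a b => f ![a, b])]
  exact Fintype.sum_equiv (finTwoArrowEquiv ι) _ _ (fun x => by
    congr 1
    funext s
    fin_cases s <;> rfl)

theorem act_cas (g : Matrix.GeneralLinearGroup (Fin n) R)
    (A B : Fin d → Matrix (Fin n) (Fin n) R) :
    act g (cas A B) =
      cas (fun k => (g : Matrix (Fin n) (Fin n) R) * A k *
          ((g⁻¹ : Matrix.GeneralLinearGroup (Fin n) R) : Matrix (Fin n) (Fin n) R))
        (fun k => (g : Matrix (Fin n) (Fin n) R) * B k *
          ((g⁻¹ : Matrix.GeneralLinearGroup (Fin n) R) : Matrix (Fin n) (Fin n) R)) := by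
  set G : Matrix (Fin n) (Fin n) R := (g : Matrix (Fin n) (Fin n) R) with hG
  set G' : Matrix (Fin n) (Fin n) R :=
    ((g⁻¹ : Matrix.GeneralLinearGroup (Fin n) R) : Matrix (Fin n) (Fin n) R) with hG'
  have key : ∀ (X : Matrix (Fin n) (Fin n) R) (p q : Fin n),
      (G * X * G') p q = ∑ a, ∑ b, G p a * X a b * G' b q := by
    intro X p q
    rw [Matrix.mul_apply, Finset.sum_comm]
    refine Finset.sum_congr rfl fun b _ => ?_
    rw [Matrix.mul_apply, Finset.sum_mul]
  funext i j
  simp only [act, cas, Fin.prod_univ_two, sum_two, Matrix.cons_val_zero, Matrix.cons_val_one,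
    ← hG, ← hG', key]
  simp only [Finset.sum_mul_sum]
  simp only [Finset.mul_sum]
  symm
  rw [Finset.sum_comm]
  refine Finset.sum_congr rfl fun a _ => ?_
  rw [Finset.sum_comm]
  refine Finset.sum_congr rfl fun c _ => ?_
  rw [Finset.sum_comm]
  refine Finset.sum_congr rfl fun b _ => ?_
  rw [Finset.sum_comm]
  refine Finset.sum_congr rfl fun e _ => ?_
  refine Finset.sum_congr rfl fun k _ => ?_
  ring

/-- contraction of the second factor -/
theorem cas_contr (A B : Fin d → Matrix (Fin n) (Fin n) R) (C : Matrix (Fin n) (Fin n) R)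
    (p q : Fin n) :
    ∑ c, ∑ e, cas A B ![p, c] ![q, e] * C e c = (∑ k, (B k * C).trace • A k) p q := by
  simp only [cas, Matrix.cons_val_zero, Matrix.cons_val_one, Matrix.sum_apply, Matrix.smul_apply,
    smul_eq_mul, Matrix.trace, Matrix.diag, Matrix.mul_apply, Finset.sum_mul]
  symm
  rw [Finset.sum_comm]
  refine Finset.sum_congr rfl fun c _ => ?_
  rw [Finset.sum_comm]
  refine Finset.sum_congr rfl fun e _ => ?_
  refine Finset.sum_congr rfl fun k _ => ?_
  ring

/-- the Casimir element does not change under a conjugation which preserves both expansions -/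
theorem cas_eq (A B A' B' : Fin d → Matrix (Fin n) (Fin n) R)
    (hA' : ∀ k, A' k = ∑ l, (A' k * B l).trace • A l)
    (hB' : ∀ k, B' k = ∑ l, (B' k * A l).trace • B l)
    (hd : ∀ l m, ∑ k, (A' k * B l).trace * (B' k * A m).trace = if l = m then 1 else 0) :
    cas A' B' = cas A B := by
  funext i j
  have h1 : ∀ k, A' k (i 0) (j 0) * B' k (i 1) (j 1) =
      ∑ l, ∑ m, ((A' k * B l).trace * (B' k * A m).trace) *
        (A l (i 0) (j 0) * B m (i 1) (j 1)) := by
    intro k
    conv_lhs => rw [hA' k, hB' k]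
    rw [Matrix.sum_apply, Matrix.sum_apply, Finset.sum_mul_sum]
    refine Finset.sum_congr rfl fun l _ => ?_
    refine Finset.sum_congr rfl fun m _ => ?_
    rw [Matrix.smul_apply, Matrix.smul_apply, smul_eq_mul, smul_eq_mul]
    ring
  simp only [cas, h1]
  rw [Finset.sum_comm]
  refine Finset.sum_congr rfl fun l _ => ?_
  rw [Finset.sum_comm]
  rw [Finset.sum_eq_single l]
  · rw [← Finset.sum_mul, hd, if_pos rfl, one_mul]
  · intro m _ hm
    rw [← Finset.sum_mul, hd, if_neg (Ne.symm hm), zero_mul]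
  · intro h
    exact absurd (Finset.mem_univ l) h

end

/-- dual bases for the trace form -/
theorem exists_dual {n : ℕ} (U : Submodule ℚ (Matrix (Fin n) (Fin n) ℚ))
    (hU : ∀ A ∈ U, (∀ B ∈ U, (A * B).trace = 0) → A = 0) :
    ∃ (d : ℕ) (A B : Fin d → Matrix (Fin n) (Fin n) ℚ),
      (∀ k, A k ∈ U) ∧ (∀ k, B k ∈ U) ∧
      (∀ X ∈ U, X = ∑ k, (X * B k).trace • A k) ∧
      (∀ X ∈ U, X = ∑ k, (X * A k).trace • B k) ∧
      (∀ k l, (A k * B l).trace = if k = l then 1 else 0) := by
  classical
  let β : LinearMap.BilinForm ℚ U := LinearMap.mk₂ ℚ (fun X Y : U => (X.1 * Y.1).trace)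
    (fun X Y Z => by simp [add_mul]) (fun c X Y => by simp)
    (fun X Y Z => by simp [mul_add]) (fun c X Y => by simp)
  have hβ : ∀ X Y : U, β X Y = (X.1 * Y.1).trace := fun X Y => rfl
  have hsym : β.IsSymm := ⟨fun X Y => by
    rw [hβ, hβ]
    exact Matrix.trace_mul_comm _ _⟩
  have hnd : β.Nondegenerate := by
    constructor
    · intro X hX
      apply Subtype.ext
      exact hU X.1 X.2 fun Y hY => hX ⟨Y, hY⟩
    · intro X hX
      apply Subtype.ext
      refine hU X.1 X.2 fun Y hY => ?_
      rw [Matrix.trace_mul_comm]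
      exact hX ⟨Y, hY⟩
  let b := Module.finBasis ℚ U
  let c := β.dualBasis hnd b
  have h1 : ∀ i j, β (c i) (b j) = if j = i then 1 else 0 :=
    fun i j => LinearMap.BilinForm.apply_dualBasis_left hnd b i j
  have h2 : ∀ (X : U) i, c.repr X i = β X (b i) :=
    fun X i => LinearMap.BilinForm.dualBasis_repr_apply hnd b X i
  have h3 : ∀ (X : U) i, b.repr X i = β X (c i) := by
    intro X i
    conv_rhs => rw [← b.sum_repr X]
    rw [map_sum, LinearMap.sum_apply, Finset.sum_eq_single i]
    · rw [map_smul, LinearMap.smul_apply, hsym.eq, h1, if_pos rfl, smul_eq_mul, mul_one]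
    · intro j _ hj
      rw [map_smul, LinearMap.smul_apply, hsym.eq, h1, if_neg hj, smul_zero]
    · intro h
      exact absurd (Finset.mem_univ i) h
  refine ⟨Module.finrank ℚ U, fun k => (b k).1, fun k => (c k).1, fun k => (b k).2,
    fun k => (c k).2, ?_, ?_, ?_⟩
  · intro X hX
    have h4 := congrArg (Subtype.val) (b.sum_repr ⟨X, hX⟩)
    refine h4.symm.trans ?_
    rw [AddSubmonoidClass.coe_finsetSum]
    refine Finset.sum_congr rfl fun k _ => ?_
    rw [h3]
    rfl
  · intro X hX
    have h4 := congrArg (Subtype.val) (c.sum_repr ⟨X, hX⟩)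
    refine h4.symm.trans ?_
    rw [AddSubmonoidClass.coe_finsetSum]
    refine Finset.sum_congr rfl fun k _ => ?_
    rw [h2]
    rfl
  · intro k l
    have h5 := h1 l k
    rw [hβ] at h5
    rw [Matrix.trace_mul_comm]
    exact h5

/-- expansions in dual bases extend to the span over a field extension -/
theorem expand {n d : ℕ} (U : Submodule ℚ (Matrix (Fin n) (Fin n) ℚ))
    (A B : Fin d → Matrix (Fin n) (Fin n) ℚ) (h : ∀ X ∈ U, X = ∑ k, (X * B k).trace • A k) :
    ∀ X ∈ spn ℂ U, X = ∑ k, (X * (B k).map (algebraMap ℚ ℂ)).trace •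
      (A k).map (algebraMap ℚ ℂ) := by
  intro X hX
  induction hX using Submodule.span_induction with
  | mem x hx =>
    obtain ⟨Y, hY, rfl⟩ := hx
    have h1 := congrArg (fun Z : Matrix (Fin n) (Fin n) ℚ => Z.map (algebraMap ℚ ℂ)) (h Y hY)
    refine h1.trans ?_
    ext i j
    simp only [Matrix.map_apply, Matrix.sum_apply, Matrix.smul_apply, smul_eq_mul, map_sum,
      map_mul]
    refine Finset.sum_congr rfl fun k _ => ?_
    rw [← Matrix.map_mul]
    congr 1
    simp only [Matrix.trace, Matrix.diag, Matrix.map_apply, map_sum]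
  | zero => simp
  | add x y _ _ hx hy =>
    conv_lhs => rw [hx, hy]
    rw [← Finset.sum_add_distrib]
    refine Finset.sum_congr rfl fun k _ => ?_
    rw [← add_smul, add_mul, Matrix.trace_add]
  | smul c x _ hx =>
    conv_lhs => rw [hx]
    rw [Finset.smul_sum]
    refine Finset.sum_congr rfl fun k _ => ?_
    rw [Matrix.smul_mul, Matrix.trace_smul, smul_smul, smul_eq_mul]

theorem base_cas {n d : ℕ} (A B : Fin d → Matrix (Fin n) (Fin n) ℚ) :
    (cas A B).base ℂ = cas (fun k => (A k).map (algebraMap ℚ ℂ))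
      (fun k => (B k).map (algebraMap ℚ ℂ)) := by
  funext i j
  simp [cas, Tensor.base]

end CAS

open CAS in
/-- the Casimir element -/
theorem st_CAS : ST_CAS := by
  intro n U hU
  obtain ⟨d, A, B, hA, hB, hexA, hexB, hdual⟩ := exists_dual U hU
  refine ⟨cas A B, ?_, ?_⟩
  · intro g hg hg'
    rw [base_cas, act_cas]
    have hinv : ((g⁻¹ : Matrix.GeneralLinearGroup (Fin n) ℂ) : Matrix (Fin n) (Fin n) ℂ) *
        (g : Matrix (Fin n) (Fin n) ℂ) = 1 := by
      rw [← Units.val_mul, inv_mul_cancel, Units.val_one]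
    set G : Matrix (Fin n) (Fin n) ℂ := (g : Matrix (Fin n) (Fin n) ℂ) with hG
    set G' : Matrix (Fin n) (Fin n) ℂ :=
      ((g⁻¹ : Matrix.GeneralLinearGroup (Fin n) ℂ) : Matrix (Fin n) (Fin n) ℂ) with hG'
    have eA := expand U A B hexA
    have eB := expand U B A hexB
    apply cas_eq
    · intro k
      exact eA _ (hg _ (mem_spn U (hA k)))
    · intro k
      exact eB _ (hg _ (mem_spn U (hB k)))
    · intro l m
      have h1 : ∀ X Y : Matrix (Fin n) (Fin n) ℂ, (G * X * G' * Y).trace =
          (X * (G' * Y * G)).trace := by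
        intro X Y
        rw [Matrix.mul_assoc, Matrix.mul_assoc, Matrix.trace_mul_comm]
        congr 1
        simp only [Matrix.mul_assoc]
      have h2 : ∀ k, (G * (A k).map (algebraMap ℚ ℂ) * G' *
          (B l).map (algebraMap ℚ ℂ)).trace * (G * (B k).map (algebraMap ℚ ℂ) * G' *
          (A m).map (algebraMap ℚ ℂ)).trace =
          ((((G' * (B l).map (algebraMap ℚ ℂ) * G) * (A k).map (algebraMap ℚ ℂ)).trace •
            (B k).map (algebraMap ℚ ℂ)) * (G' * (A m).map (algebraMap ℚ ℂ) * G)).trace := by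
        intro k
        rw [h1, h1, Matrix.smul_mul, Matrix.trace_smul, smul_eq_mul,
          Matrix.trace_mul_comm ((A k).map (algebraMap ℚ ℂ))]
      simp only [h2]
      rw [← Matrix.trace_sum, ← Finset.sum_mul,
        ← eB _ (hg' _ (mem_spn U (hB l)))]
      have h3 : G' * (B l).map (algebraMap ℚ ℂ) * G * (G' * (A m).map (algebraMap ℚ ℂ) * G) =
          G' * ((B l).map (algebraMap ℚ ℂ) * (A m).map (algebraMap ℚ ℂ)) * G := by
        have hGG : G * G' = 1 := by
          rw [hG, hG', ← Units.val_mul, mul_inv_cancel, Units.val_one]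
        calc G' * (B l).map (algebraMap ℚ ℂ) * G * (G' * (A m).map (algebraMap ℚ ℂ) * G)
            = G' * (B l).map (algebraMap ℚ ℂ) * (G * G') * ((A m).map (algebraMap ℚ ℂ) * G) := by
              simp only [Matrix.mul_assoc]
          _ = _ := by
              rw [hGG, Matrix.mul_one]
              simp only [Matrix.mul_assoc]
      have hGG : G * G' = 1 := by
        rw [hG, hG', ← Units.val_mul, mul_inv_cancel, Units.val_one]
      rw [h3, Matrix.mul_assoc, Matrix.trace_mul_comm, Matrix.mul_assoc, hGG, Matrix.mul_one,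
        ← Matrix.map_mul]
      have h4 : ((B l * A m).map (algebraMap ℚ ℂ)).trace = algebraMap ℚ ℂ (B l * A m).trace := by
        simp only [Matrix.trace, Matrix.diag, Matrix.map_apply, map_sum]
      rw [h4, Matrix.trace_mul_comm, hdual]
      by_cases hlm : l = m
      · rw [if_pos hlm, if_pos hlm.symm, map_one]
      · rw [if_neg hlm, if_neg (Ne.symm hlm), map_zero]
  · intro g hg X hX
    rw [act_cas] at hg
    set G : Matrix (Fin n) (Fin n) ℚ := (g : Matrix (Fin n) (Fin n) ℚ) with hG
    set G' : Matrix (Fin n) (Fin n) ℚ :=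
      ((g⁻¹ : Matrix.GeneralLinearGroup (Fin n) ℚ) : Matrix (Fin n) (Fin n) ℚ) with hG'
    have hG'G : G' * G = 1 := by
      rw [hG, hG', ← Units.val_mul, inv_mul_cancel, Units.val_one]
    have h1 : ∑ k, ((G * B k * G') * (G * X * G')).trace • (G * A k * G') =
        ∑ k, (B k * (G * X * G')).trace • A k := by
      ext p q
      rw [← cas_contr, ← cas_contr, hg]
    have h2 : ∀ k, ((G * B k * G') * (G * X * G')).trace = (X * B k).trace := by
      intro k
      have h3 : (G * B k * G') * (G * X * G') = G * (B k * X * G') := by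
        calc (G * B k * G') * (G * X * G') = G * B k * (G' * G) * (X * G') := by
              simp only [Matrix.mul_assoc]
          _ = _ := by
              rw [hG'G, Matrix.mul_one]
              simp only [Matrix.mul_assoc]
      rw [h3, Matrix.trace_mul_comm, Matrix.mul_assoc, hG'G, Matrix.mul_one,
        Matrix.trace_mul_comm]
    have h4 : G * X * G' = ∑ k, ((G * B k * G') * (G * X * G')).trace • (G * A k * G') := by
      conv_lhs => rw [hexA X hX]
      rw [Finset.mul_sum, Finset.sum_mul]
      refine Finset.sum_congr rfl fun k _ => ?_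
      rw [h2, Matrix.mul_smul, Matrix.smul_mul]
    rw [h4, h1]
    exact U.sum_mem fun k _ => U.smul_mem _ (hA k)

end HD
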